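import Pool.Agent.Helper55.PC.Base

/-!
# Block B12 of MP_cf7fa9_pr: the finite gadget group

`R = Perm (Fin N)`, `U` = even-weight functions `Fin N → ZMod 2`.
-/

namespace Pool.Agent.Helper55.PC

open Finset
open scoped Classical

namespace B12

/-- even-weight functions -/
def EW (N : ℕ) : AddSubgroup (Fin N → ZMod 2) where
  carrier := {v | ∑ y, v y = 0}
  add_mem' := by
    intro a b ha hb
    simp only [Set.mem_ofPred_eq, Pi.add_apply, sum_add_distrib] at *
    rw [ha, hb, add_zero]
  zero_mem' := by simp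
  neg_mem' := by
    intro a ha
    simp only [Set.mem_ofPred_eq, Pi.neg_apply, sum_neg_distrib] at *
    rw [ha, neg_zero]

/-- the action of permutations -/
def act {N : ℕ} (ρ : Equiv.Perm (Fin N)) (v : EW N) : EW N :=
  ⟨fun y => v.1 (ρ⁻¹ y), by
    have h : ∑ y, v.1 (ρ⁻¹ y) = ∑ y, v.1 y := Equiv.sum_comp (ρ⁻¹) v.1
    change ∑ y, v.1 (ρ⁻¹ y) = 0
    rw [h]; exact v.2⟩

instance instAct (N : ℕ) : DistribMulAction (Equiv.Perm (Fin N)) (EW N) where
  smul := act
  one_smul := by
    intro v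
    apply Subtype.ext
    funext y
    change v.1 ((1 : Equiv.Perm (Fin N))⁻¹ y) = v.1 y
    simp
  mul_smul := by
    intro a b v
    apply Subtype.ext
    funext y
    change v.1 ((a * b)⁻¹ y) = v.1 (b⁻¹ (a⁻¹ y))
    rw [mul_inv_rev]; rfl
  smul_zero := by
    intro a
    apply Subtype.ext
    funext y
    rfl
  smul_add := by
    intro a v w
    apply Subtype.ext
    funext y
    rfl

/-- `δ_z + δ_z'` -/
def d2 {N : ℕ} (z z' : Fin N) : EW N :=
  ⟨Pi.single z 1 + Pi.single z' 1, by
    change ∑ y, (Pi.single z 1 + Pi.single z' 1 : Fin N → ZMod 2) y = 0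
    simp only [Pi.add_apply, sum_add_distrib, Finset.sum_pi_single', mem_univ, if_true]
    decide⟩

lemma d2_val {N : ℕ} (z z' : Fin N) :
    (d2 z z').1 = Pi.single z 1 + Pi.single z' 1 := rfl

lemma two_zero (a : ZMod 2) : a + a = 0 := by
  revert a; decide

lemma ew_two {N : ℕ} (v : EW N) : v + v = 0 := by
  apply Subtype.ext
  funext y
  exact two_zero _

lemma smul_d2 {N : ℕ} (a : Equiv.Perm (Fin N)) (z z' : Fin N) :
    a • d2 z z' = d2 (a z) (a z') := by
  apply Subtype.ext
  funext y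
  change (Pi.single z 1 + Pi.single z' 1 : Fin N → ZMod 2) (a⁻¹ y)
    = (Pi.single (a z) 1 + Pi.single (a z') 1 : Fin N → ZMod 2) y
  simp only [Pi.add_apply, Pi.single_apply]
  have h : ∀ w : Fin N, (a⁻¹ y = w) ↔ (y = a w) := by
    intro w
    rw [Equiv.Perm.inv_eq_iff_eq]
  simp only [h]

lemma d2_self {N : ℕ} (z : Fin N) : d2 z z = 0 := by
  apply Subtype.ext
  funext y
  exact two_zero _

lemma d2_ne_zero {N : ℕ} (z z' : Fin N) (h : z ≠ z') : d2 z z' ≠ 0 := by
  intro h0
  have h1 : (d2 z z').1 z = 0 := by rw [h0]; rfl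
  rw [d2_val, Pi.add_apply, Pi.single_eq_same, Pi.single_eq_of_ne h, add_zero] at h1
  exact absurd h1 (by decide)

lemma d2_add {N : ℕ} (y z z' : Fin N) : d2 y z + d2 y z' = d2 z z' := by
  apply Subtype.ext
  funext x
  change (Pi.single y 1 + Pi.single z 1 : Fin N → ZMod 2) x
    + (Pi.single y 1 + Pi.single z' 1 : Fin N → ZMod 2) x
    = (Pi.single z 1 + Pi.single z' 1 : Fin N → ZMod 2) x
  simp only [Pi.add_apply]
  generalize (Pi.single y 1 : Fin N → ZMod 2) x = p
  generalize (Pi.single z 1 : Fin N → ZMod 2) x = q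
  generalize (Pi.single z' 1 : Fin N → ZMod 2) x = r
  revert p q r
  decide

/-- a character killing all `d2 z y0` is trivial -/
lemma char_zero {N : ℕ} (χ : EW N →+ ZMod 2) (y0 : Fin N) (h : ∀ z, χ (d2 z y0) = 0) : χ = 0 := by
  ext v
  have hv : v = ∑ z, (if v.1 z = 0 then 0 else d2 z y0) := by
    apply Subtype.ext
    funext x
    rw [AddSubgroup.val_finsetSum, Finset.sum_apply]
    have hs : ∑ y, v.1 y = 0 := v.2
    have hterm : ∀ z, ((if v.1 z = 0 then (0 : EW N) else d2 z y0) : EW N).1 x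
        = v.1 z * (Pi.single z 1 : Fin N → ZMod 2) x
          + v.1 z * (Pi.single y0 1 : Fin N → ZMod 2) x := by
      intro z
      by_cases hz : v.1 z = 0
      · rw [if_pos hz, hz]; simp
      · have h1 : v.1 z = 1 := by
          revert hz
          generalize v.1 z = p
          revert p; decide
        rw [if_neg hz, h1, d2_val]; simp
    rw [Finset.sum_congr rfl (fun z _ => hterm z), sum_add_distrib, ← Finset.sum_mul, hs, zero_mul,
      add_zero]
    simp only [Pi.single_apply, mul_ite, mul_one, mul_zero]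
    simp
  rw [hv, map_sum]
  simp only [AddMonoidHom.zero_apply]
  apply Finset.sum_eq_zero
  intro z _
  by_cases hz : v.1 z = 0
  · rw [if_pos hz, map_zero]
  · rw [if_neg hz, h z]

/-- three distinct points can be moved to three distinct points -/
lemma exists_perm {N : ℕ} (p1 p2 p3 r1 r2 r3 : Fin N) (h12 : p1 ≠ p2) (h13 : p1 ≠ p3)
    (h23 : p2 ≠ p3) (k12 : r1 ≠ r2) (k13 : r1 ≠ r3) (k23 : r2 ≠ r3) :
    ∃ a : Equiv.Perm (Fin N), a p1 = r1 ∧ a p2 = r2 ∧ a p3 = r3 := by
  -- first move `p1 ↦ r1`, then `p2' ↦ r2`, then `p3'' ↦ r3`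
  refine ⟨Equiv.swap (Equiv.swap (Equiv.swap p1 r1 p2) r2 (Equiv.swap p1 r1 p3)) r3 *
    (Equiv.swap (Equiv.swap p1 r1 p2) r2 * Equiv.swap p1 r1), ?_, ?_, ?_⟩
  all_goals
    simp only [Equiv.Perm.mul_apply, Equiv.swap_apply_left]
  · have e1 : Equiv.swap (Equiv.swap p1 r1 p2) r2 r1 = r1 := by
      apply Equiv.swap_apply_of_ne_of_ne
      · intro h
        have : Equiv.swap p1 r1 p1 = Equiv.swap p1 r1 p2 := by
          rw [Equiv.swap_apply_left]; exact h
        exact h12 ((Equiv.swap p1 r1).injective this)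
      · exact k12
    rw [e1]
    apply Equiv.swap_apply_of_ne_of_ne
    · intro h
      have h2 : Equiv.swap (Equiv.swap p1 r1 p2) r2 (Equiv.swap p1 r1 p1)
          = Equiv.swap (Equiv.swap p1 r1 p2) r2 (Equiv.swap p1 r1 p3) := by
        rw [Equiv.swap_apply_left, e1]; exact h
      exact h13 ((Equiv.swap p1 r1).injective
        ((Equiv.swap (Equiv.swap p1 r1 p2) r2).injective h2))
    · exact k13
  · apply Equiv.swap_apply_of_ne_of_ne
    · intro h
      have h2 : Equiv.swap (Equiv.swap p1 r1 p2) r2 (Equiv.swap p1 r1 p2)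
          = Equiv.swap (Equiv.swap p1 r1 p2) r2 (Equiv.swap p1 r1 p3) := by
        rw [Equiv.swap_apply_left]; exact h
      exact h23 ((Equiv.swap p1 r1).injective
        ((Equiv.swap (Equiv.swap p1 r1 p2) r2).injective h2))
    · exact k23

lemma main {I : Type} [Fintype I] {N : ℕ} (Y Y' : I → Fin N) (z0 : Fin N)
    (hY' : Function.Injective Y') (hYY' : ∀ i j, Y i ≠ Y' j)
    (hz : ∀ i, Y i ≠ z0) (hz' : ∀ i, Y' i ≠ z0) (hN : 3 ≤ N)
    (χ : I → (EW N →+ ZMod 2)) (hχ : ∃ i, χ i ≠ 0) :
    ∃ a : Equiv.Perm (Fin N), ∑ i, χ i (a • d2 (Y i) (Y' i)) ≠ 0 := by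
  obtain ⟨i0, hi0⟩ := hχ
  by_contra hcon
  push Not at hcon
  -- distinct `z, z'`
  have h1 : ∃ z, χ i0 (d2 z z0) ≠ 0 := by
    by_contra hh
    push Not at hh
    exact hi0 (char_zero _ z0 hh)
  obtain ⟨z, hzz⟩ := h1
  have hne : z ≠ z0 := by
    rintro rfl
    rw [d2_self, map_zero] at hzz
    exact hzz rfl
  obtain ⟨y, hy⟩ : ∃ y, y ∉ ({z, z0} : Finset (Fin N)) := by
    by_contra hh
    push Not at hh
    have h2 : (Finset.univ : Finset (Fin N)) ⊆ {z, z0} := fun x _ => hh x
    have h3 := Finset.card_le_card h2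
    rw [Finset.card_univ, Fintype.card_fin] at h3
    have h4 := Finset.card_le_two (a := z) (b := z0)
    omega
  have hyz : y ≠ z := by rintro rfl; simp at hy
  have hyz0 : y ≠ z0 := by rintro rfl; simp at hy
  obtain ⟨a, ha1, ha2, ha3⟩ := exists_perm (Y i0) (Y' i0) z0 y z z0 (hYY' _ _) (hz _) (hz' _)
    hyz hyz0 hne
  have e1 := hcon a
  have e2 := hcon (Equiv.swap z z0 * a)
  have hrest : ∀ i ∈ (Finset.univ.erase i0 : Finset I),
      χ i ((Equiv.swap z z0 * a) • d2 (Y i) (Y' i)) = χ i (a • d2 (Y i) (Y' i)) := by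
    intro i hi
    have hii : i ≠ i0 := (Finset.mem_erase.mp hi).1
    rw [smul_d2, smul_d2]
    congr 2
    · rw [Equiv.Perm.mul_apply]
      apply Equiv.swap_apply_of_ne_of_ne
      · intro h
        rw [← ha2] at h
        exact hYY' _ _ (a.injective h)
      · intro h
        rw [← ha3] at h
        exact hz _ (a.injective h)
    · rw [Equiv.Perm.mul_apply]
      apply Equiv.swap_apply_of_ne_of_ne
      · intro h
        rw [← ha2] at h
        exact hii (hY' (a.injective h))
      · intro h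
        rw [← ha3] at h
        exact hz' _ (a.injective h)
  rw [← Finset.add_sum_erase _ _ (Finset.mem_univ i0)] at e1 e2
  rw [Finset.sum_congr rfl hrest] at e2
  have e3 : χ i0 (a • d2 (Y i0) (Y' i0)) = χ i0 ((Equiv.swap z z0 * a) • d2 (Y i0) (Y' i0)) := by
    have := e1.trans e2.symm
    exact add_right_cancel this
  rw [smul_d2, smul_d2, Equiv.Perm.mul_apply, Equiv.Perm.mul_apply, ha1, ha2,
    Equiv.swap_apply_left, Equiv.swap_apply_of_ne_of_ne hyz hyz0] at e3
  apply hzz
  rw [← d2_add y z z0, map_add, e3]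
  exact two_zero _

end B12

open B12 in
theorem exists_gadget (I : Type) [Fintype I] :
    ∃ (R U : Type) (_ : Group R) (_ : Fintype R) (_ : AddCommGroup U) (_ : Fintype U)
      (_ : DistribMulAction R U) (s q : R) (u : I → U),
      s ≠ 1 ∧ s * s = 1 ∧ q ≠ q⁻¹ ∧ Subgroup.closure {s, q} = ⊤ ∧ (∀ v : U, v + v = 0) ∧
      (∀ i, u i ≠ 0) ∧
      ∀ χ : I → (U →+ ZMod 2), (∃ i, χ i ≠ 0) → ∃ a : R, ∑ i, χ i (a • u i) ≠ 0 := by
  set n := Fintype.card I with hn
  let e : I ≃ Fin n := Fintype.equivFin I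
  let N := 2 * n + 1 + 2
  let Y : I → Fin N := fun i => ⟨(e i : ℕ), by have := (e i).2; omega⟩
  let Y' : I → Fin N := fun i => ⟨n + (e i : ℕ), by have := (e i).2; omega⟩
  let z0 : Fin N := ⟨2 * n, by omega⟩
  refine ⟨Equiv.Perm (Fin N), EW N, inferInstance, inferInstance, inferInstance,
    Fintype.ofFinite _, inferInstance, Equiv.swap 0 (finRotate N 0), finRotate N,
    fun i => d2 (Y i) (Y' i), ?_, ?_, ?_, ?_, ew_two, ?_, ?_⟩
  · intro h
    rw [Equiv.swap_eq_one_iff] at h
    have : (finRotate N 0 : Fin N) = 1 := finRotate_apply_zero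
    rw [this] at h
    exact absurd h (by simp)
  · exact Equiv.swap_mul_self _ _
  · intro h
    have h2 : finRotate N (finRotate N 0) = 0 := by
      have : (finRotate N) ((finRotate N)⁻¹ 0) = 0 := by simp
      rw [← h] at this
      exact this
    have h3 : (finRotate N 0 : Fin N) = 1 := finRotate_apply_zero
    rw [h3] at h2
    rw [finRotate_apply] at h2
    have h4 := congrArg Fin.val h2
    have h5 : ((1 : Fin N) : ℕ) = 1 := rfl
    rw [Fin.val_add, h5] at h4
    have h6 : (1 + 1) % N = 2 := Nat.mod_eq_of_lt (by omega)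
    rw [h6] at h4
    exact absurd h4 (by simp)
  · rw [Set.pair_comm]
    exact Equiv.Perm.closure_cycle_adjacent_swap isCycle_finRotate support_finRotate 0
  · intro i h
    refine d2_ne_zero (Y i) (Y' i) ?_ h
    intro h
    have := congrArg Fin.val h
    simp only [Y, Y'] at this
    have := (e i).2
    omega
  · intro χ hχ
    refine main Y Y' z0 ?_ ?_ ?_ ?_ (by omega) χ hχ
    · intro i j h
      apply e.injective
      apply Fin.ext
      have := congrArg Fin.val h
      simp only [Y'] at this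
      omega
    · intro i j h
      have := congrArg Fin.val h
      simp only [Y, Y'] at this
      have := (e i).2
      omega
    · intro i h
      have := congrArg Fin.val h
      simp only [Y, z0] at this
      have := (e i).2
      omega
    · intro i h
      have := congrArg Fin.val h
      simp only [Y', z0] at this
      have := (e i).2
      omega

end Pool.Agent.Helper55.PC
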